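import Pool.Agent.X326.Dic.Sim

/-!
# Condition (N) for the dicyclic group of order 12 and the prime 2
-/

set_option autoImplicit false

namespace Pool.Agent.X326.Dic

open QuaternionGroup

section

variable {S : FinMod 2 (QuaternionGroup 3)}

theorem a3_trivial (hS : IsSimpleModule (MonoidAlgebra (ZMod 2) (QuaternionGroup 3)) S.carrier)
    (x : S.carrier) : act S (a 3) x = x := by
  have hc : ∀ g : QuaternionGroup 3, a 3 * g = g * a 3 := by decide
  have hsq : (a 3 * a 3 : QuaternionGroup 3) = 1 := by decide
  rcases dichotomy hS (fun x => act S (a 3) x = x) (act_zero S _)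
    (fun x y hx hy => by rw [act_add, hx, hy])
    (fun g x hx => by rw [← act_mul, hc, act_mul, hx]) with h | h
  · exfalso
    have hn : Nontrivial S.carrier := IsSimpleModule.nontrivial
      (MonoidAlgebra (ZMod 2) (QuaternionGroup 3)) S.carrier
    obtain ⟨t, ht⟩ := exists_ne (0 : S.carrier)
    have h1 := h (t + act S (a 3) t) (by
      rw [act_add, ← act_mul, hsq, act_one, add_comm])
    have h2 : act S (a 3) t = t := by
      rw [eq_neg_of_add_eq_zero_right h1, neg_self]
    exact ht (h t h2)
  · exact h x

theorem exists_fixed (hS : IsSimpleModule (MonoidAlgebra (ZMod 2) (QuaternionGroup 3)) S.carrier) :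
    ∃ s : S.carrier, s ≠ 0 ∧ act S (xa 0) s = s := by
  have hn : Nontrivial S.carrier := IsSimpleModule.nontrivial
    (MonoidAlgebra (ZMod 2) (QuaternionGroup 3)) S.carrier
  obtain ⟨t, ht⟩ := exists_ne (0 : S.carrier)
  have hsq : (xa 0 * xa 0 : QuaternionGroup 3) = a 3 := by decide
  by_cases h : t + act S (xa 0) t = 0
  · exact ⟨t, ht, by rw [eq_neg_of_add_eq_zero_right h, neg_self]⟩
  · refine ⟨_, h, ?_⟩
    rw [act_add, ← act_mul, hsq, a3_trivial hS, add_comm]

/-- the simple modules are reductions -/
theorem simple_isReduction
    (hS : IsSimpleModule (MonoidAlgebra (ZMod 2) (QuaternionGroup 3)) S.carrier) :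
    IsReduction S := by
  obtain ⟨s, hs0, hs⟩ := exists_fixed hS
  have hc : ∀ g : QuaternionGroup 3, a 2 * g = g * a 2 ∨ a 2 * g = g * a 4 := by decide
  have h4 : (a 4 : QuaternionGroup 3) = a 2 * a 2 := by decide
  rcases dichotomy hS (fun x => act S (a 2) x = x) (act_zero S _)
    (fun x y hx hy => by rw [act_add, hx, hy])
    (fun g x hx => by
      rcases hc g with h | h
      · rw [← act_mul, h, act_mul, hx]
      · rw [← act_mul, h, act_mul, h4, act_mul, hx, hx]) with h | h
  · -- the two-dimensional module
    let u := act S (a 2) s
    have hu : act S (a 2) s = u := rfl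
    have hsum : s + u + act S (a 2) u = 0 := by
      apply h
      have h6 : (a 2 * (a 2 * a 2) : QuaternionGroup 3) = 1 := by decide
      have h7 : act S (a 2) (act S (a 2) u) = s := by
        rw [← hu, ← act_mul, ← act_mul, mul_assoc, h6, act_one]
      rw [act_add, act_add, h7, hu]
      abel
    have hau : act S (a 2) u = s + u := by
      rw [eq_neg_of_add_eq_zero_right hsum, neg_self]
    have hxu : act S (xa 0) u = s + u := by
      have h8 : (xa 0 * a 2 : QuaternionGroup 3) = a 2 * (a 2 * xa 0) := by decide
      rw [← hau, ← hu, ← act_mul, h8, act_mul, act_mul, hs]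
    have hus : u ≠ s := fun h9 => hs0 (h s h9)
    have hu0 : u ≠ 0 := by
      intro h9
      rw [h9, act_zero, add_zero] at hau
      exact hs0 hau.symm
    have hall : ∀ x : S.carrier, x = 0 ∨ x = s ∨ x = u ∨ x = s + u := by
      refine (dichotomy hS (fun x => x = 0 ∨ x = s ∨ x = u ∨ x = s + u) (Or.inl rfl)
        ?_ ?_).resolve_left (fun h9 => hs0 (h9 s (Or.inr (Or.inl rfl))))
      · have e1 : s + s = 0 := add_self S s
        have e2 : u + u = 0 := add_self S u
        have e3 : s + (s + u) = u := by rw [← add_assoc, e1, zero_add]
        have e4 : u + (s + u) = s := by rw [add_left_comm, e2, add_zero]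
        rintro x y (rfl | rfl | rfl | rfl) (rfl | rfl | rfl | rfl)
        · left; rw [add_zero]
        · right; left; rw [zero_add]
        · right; right; left; rw [zero_add]
        · right; right; right; rw [zero_add]
        · right; left; rw [add_zero]
        · left; exact e1
        · right; right; right; rfl
        · right; right; left; exact e3
        · right; right; left; rw [add_zero]
        · right; right; right; rw [add_comm]
        · left; exact e2
        · right; left; exact e4
        · right; right; right; rw [add_zero]
        · right; right; left; rw [add_comm]; exact e3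
        · right; left; rw [add_comm]; exact e4
        · left; exact add_self S _
      · intro g
        refine gen_ind (fun g => ∀ x, (x = 0 ∨ x = s ∨ x = u ∨ x = s + u) →
          (act S g x = 0 ∨ act S g x = s ∨ act S g x = u ∨ act S g x = s + u)) ?_ ?_ ?_ ?_ ?_ g
        · intro x hx
          rwa [act_one]
        · intro g h hg hh x hx
          rw [act_mul]
          exact hg _ (hh _ hx)
        · rintro x (rfl | rfl | rfl | rfl)
          · left; exact act_zero S _
          · right; right; left; rfl
          · right; right; right; exact hau
          · right; left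
            rw [act_add, hu, hau, add_left_comm, add_self, add_zero]
        · intro x hx
          rwa [a3_trivial hS]
        · rintro x (rfl | rfl | rfl | rfl)
          · left; exact act_zero S _
          · right; left; exact hs
          · right; right; right; exact hxu
          · right; right; left
            rw [act_add, hs, hxu, ← add_assoc, add_self, zero_add]
    refine isReduction_of_basis S 2 MT ![s, u] ?_ ?_ ?_ MT_irr
    · intro g
      refine gen_ind (fun g => ∀ j, MonoidAlgebra.single g (1 : ZMod 2) • (![s, u] : Fin 2 → _) j =
        ∑ i, MT g i j • (![s, u] : Fin 2 → _) i) ?_ ?_ ?_ ?_ ?_ g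
      · intro j
        have := act_one S ((![s, u] : Fin 2 → _) j)
        rw [act] at this
        rw [this, map_one]
        fin_cases j <;> simp [Matrix.one_apply]
      · intro g h hg hh j
        have h10 := act_mul S g h ((![s, u] : Fin 2 → _) j)
        unfold act at h10
        rw [h10, hh, Finset.smul_sum, map_mul]
        have h11 : ∀ i, MonoidAlgebra.single g (1 : ZMod 2) • MT h i j • (![s, u] : Fin 2 → _) i =
            ∑ k, (MT g k i * MT h i j) • (![s, u] : Fin 2 → _) k := by
          intro i
          rw [smul_comm, hg, Finset.smul_sum]
          refine Finset.sum_congr rfl (fun k _ => ?_)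
          rw [← mul_smul, mul_comm]
        rw [Finset.sum_congr rfl (fun i _ => h11 i), Finset.sum_comm]
        refine Finset.sum_congr rfl (fun k _ => ?_)
        rw [← Finset.sum_smul]
        rfl
      · intro j
        have e : MT (a 2) = !![0, -1; 1, -1] := rfl
        rw [e]
        fin_cases j
        · simp only [Fin.sum_univ_two]
          change act S (a 2) s = (0 : ℤ) • s + (1 : ℤ) • u
          rw [zero_zsmul, one_zsmul, zero_add]
        · simp only [Fin.sum_univ_two]
          change act S (a 2) u = (-1 : ℤ) • s + (-1 : ℤ) • u
          rw [hau, neg_one_zsmul, neg_one_zsmul, neg_self, neg_self]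
      · intro j
        have e : MT (a 3) = 1 := rfl
        have := a3_trivial hS ((![s, u] : Fin 2 → _) j)
        rw [act] at this
        rw [e, this]
        fin_cases j <;> simp [Matrix.one_apply]
      · intro j
        have e : MT (xa 0) = !![1, -1; 0, -1] := rfl
        rw [e]
        fin_cases j
        · simp only [Fin.sum_univ_two]
          change act S (xa 0) s = (1 : ℤ) • s + (0 : ℤ) • u
          rw [hs, zero_zsmul, one_zsmul, add_zero]
        · simp only [Fin.sum_univ_two]
          change act S (xa 0) u = (-1 : ℤ) • s + (-1 : ℤ) • u
          rw [hxu, neg_one_zsmul, neg_one_zsmul, neg_self, neg_self]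
    · intro x
      rcases hall x with rfl | rfl | rfl | rfl
      · exact ⟨![0, 0], by simp [Fin.sum_univ_two]⟩
      · exact ⟨![1, 0], by simp [Fin.sum_univ_two]⟩
      · exact ⟨![0, 1], by simp [Fin.sum_univ_two]⟩
      · exact ⟨![1, 1], by simp [Fin.sum_univ_two]⟩
    · intro c hc0
      rw [Fin.sum_univ_two] at hc0
      simp only [Matrix.cons_val_zero, Matrix.cons_val_one, zsmul_eq] at hc0
      have h12 : Even (c 0) ∧ Even (c 1) := by
        by_cases h13 : Even (c 0) <;> by_cases h14 : Even (c 1)
        · exact ⟨h13, h14⟩
        · rw [if_pos h13, if_neg h14, zero_add] at hc0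
          exact absurd hc0 hu0
        · rw [if_neg h13, if_pos h14, add_zero] at hc0
          exact absurd hc0 hs0
        · rw [if_neg h13, if_neg h14] at hc0
          rw [eq_neg_of_add_eq_zero_right hc0, neg_self] at hus
          exact absurd rfl hus
      intro i
      fin_cases i
      · exact h12.1.two_dvd
      · exact h12.2.two_dvd
  · -- the trivial module
    have hfix : ∀ g : QuaternionGroup 3, act S g s = s := by
      intro g
      refine gen_ind (fun g => act S g s = s) (act_one S s) ?_ (h s) (a3_trivial hS s) hs g
      intro g h hg hh
      rw [act_mul, hh, hg]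
    have hall : ∀ x : S.carrier, x = 0 ∨ x = s := by
      refine (dichotomy hS (fun x => x = 0 ∨ x = s) (Or.inl rfl) ?_ ?_).resolve_left
        (fun h9 => hs0 (h9 s (Or.inr rfl)))
      · rintro x y (rfl | rfl) (rfl | rfl)
        · left; rw [add_zero]
        · right; rw [zero_add]
        · right; rw [add_zero]
        · left; exact add_self S _
      · rintro g x (rfl | rfl)
        · left; exact act_zero S _
        · right; exact hfix g
    refine isReduction_of_basis S 1 1 (fun _ => s) ?_ ?_ ?_ one_irr
    · intro g j
      have := hfix g
      unfold act at this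
      rw [this]
      fin_cases j
      simp
    · intro x
      rcases hall x with rfl | rfl
      · exact ⟨0, by simp⟩
      · exact ⟨1, by simp⟩
    · intro c hc0 i
      fin_cases i
      rw [Fin.sum_univ_one, zsmul_eq] at hc0
      by_cases h13 : Even (c 0)
      · exact h13.two_dvd
      · rw [if_neg h13] at hc0
        exact absurd hc0 hs0

end

theorem conditionN : ConditionN 2 (QuaternionGroup 3) := by
  intro P _ _
  exact devissage (fun M => IsReduction M) (fun S hS => simple_isReduction hS) _ P le_rfl

end Pool.Agent.X326.Dic
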