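import Mathlib

/-!
# Semiperfect rings, local group rings and reductions

Definitions for MP_70eb0a_al.
-/

set_option autoImplicit false

namespace Pool.Agent.X326.Dic

/-- `ℤ_(p)`: the rational numbers whose denominators are prime to `p`. -/
def ZLoc (p : ℕ) [hp : Fact p.Prime] : Subring ℚ where
  carrier := {q | ¬ p ∣ q.den}
  mul_mem' := by
    intro a b ha hb h
    rcases (hp.out.dvd_mul).1 (h.trans (Rat.mul_den_dvd a b)) with h1 | h1
    · exact ha h1
    · exact hb h1
  one_mem' := by
    intro h
    exact hp.out.one_lt.ne' (Nat.dvd_one.1 h)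
  add_mem' := by
    intro a b ha hb h
    rcases (hp.out.dvd_mul).1 (h.trans (Rat.add_den_dvd a b)) with h1 | h1
    · exact ha h1
    · exact hb h1
  zero_mem' := by
    intro h
    exact hp.out.one_lt.ne' (Nat.dvd_one.1 h)
  neg_mem' := by
    intro a ha h
    exact ha h

/-- A ring `R` is semiperfect: `R / J` is semisimple, where `J` is the Jacobson radical, and
idempotents lift modulo `J`. -/
def IsSemiperfect (R : Type) [Ring R] : Prop :=
  IsSemisimpleRing (R ⧸ Ring.jacobson R) ∧
    ∀ x : R, x * x - x ∈ Ring.jacobson R → ∃ e : R, e * e = e ∧ e - x ∈ Ring.jacobson R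

/-- There is a short exact sequence `0 → A → B → C → 0` of `R`-modules. -/
def ShortExact (R A B C : Type) [Ring R] [AddCommGroup A] [Module R A] [AddCommGroup B]
    [Module R B] [AddCommGroup C] [Module R C] : Prop :=
  ∃ (f : A →ₗ[R] B) (g : B →ₗ[R] C),
    Function.Injective f ∧ Function.Exact f g ∧ Function.Surjective g

/-- A module is indecomposable: it is not zero and not a direct sum of two nonzero submodules. -/
def Indecomposable (R M : Type) [Ring R] [AddCommGroup M] [Module R M] : Prop :=
  Nontrivial M ∧ ∀ A B : Submodule R M, IsCompl A B → A = ⊥ ∨ B = ⊥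

/-- Let `ρ` be a representation of `G` on the `K`-vector space `V`, let `A` be a ring which acts on
`V`, let `π ∈ A` and let `G` act on `N` by `act`.  There is a finitely generated `A`-submodule `L`
of `V` which is `G`-stable and spans `V` over `K`, with a surjective `G`-equivariant additive map
from `L` to `N` with the kernel `π L`, so that `N` is isomorphic to `L / π L`. -/
def LatticeReduction (A K : Type) [CommRing A] [Field K] {G V N : Type} [Group G]
    [AddCommGroup V] [Module A V] [Module K V] [AddCommGroup N] (ρ : Representation K G V)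
    (π : A) (act : G → N → N) : Prop :=
  ∃ (L : Submodule A V) (f : L →+ N), L.FG ∧ Submodule.span K (L : Set V) = ⊤ ∧
    Function.Surjective f ∧
    (∀ (g : G) (x : V) (hx : x ∈ L), ∃ hg : ρ g x ∈ L, f ⟨ρ g x, hg⟩ = act g (f ⟨x, hx⟩)) ∧
    ∀ x : L, f x = 0 ↔ ∃ y : L, x = π • y

section

variable (p : ℕ) (G : Type) [Group G]

/-- A finitely generated module over the group ring `𝔽_p G`. -/
structure FinMod where
  carrier : Type
  [grp : AddCommGroup carrier]
  [mod : Module (MonoidAlgebra (ZMod p) G) carrier]
  [fin : Module.Finite (MonoidAlgebra (ZMod p) G) carrier]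

attribute [instance] FinMod.grp FinMod.mod FinMod.fin

/-- The relations `[B] = [A] + [C]` for the short exact sequences `0 → A → B → C → 0`. -/
def relations : Set (FreeAbelianGroup (FinMod p G)) :=
  {x | ∃ A B C : FinMod p G,
    ShortExact (MonoidAlgebra (ZMod p) G) A.carrier B.carrier C.carrier ∧
      x = FreeAbelianGroup.of B - FreeAbelianGroup.of A - FreeAbelianGroup.of C}

/-- The Grothendieck group of the finitely generated `𝔽_p G`-modules. -/
abbrev G0 : Type 1 := FreeAbelianGroup (FinMod p G) ⧸ AddSubgroup.closure (relations p G)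

variable {p G}

/-- The class of a module in the Grothendieck group. -/
def cls (M : FinMod p G) : G0 p G := QuotientAddGroup.mk (FreeAbelianGroup.of M)

/-- The `𝔽_p G`-module `M` is the reduction of a simple `ℚ G`-module: there is an irreducible
representation `ρ` of `G` on a `ℚ`-vector space `V` with a `G`-stable `ℤ_(p)`-lattice `L` such that
`M` is isomorphic to `L / p L`. -/
def IsReduction [Fact p.Prime] (M : FinMod p G) : Prop :=
  ∃ (V : Type) (_ : AddCommGroup V) (_ : Module ℚ V) (ρ : Representation ℚ G V),
    ρ.IsIrreducible ∧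
      LatticeReduction (ZLoc p) ℚ ρ (p : ZLoc p)
        (fun g (x : M.carrier) => MonoidAlgebra.single g (1 : ZMod p) • x)

variable (p G)

/-- Condition (N): the class of every projective indecomposable `𝔽_p G`-module is a finite sum of
classes of reductions of simple `ℚ G`-modules. -/
def ConditionN [Fact p.Prime] : Prop :=
  ∀ P : FinMod p G, Module.Projective (MonoidAlgebra (ZMod p) G) P.carrier →
    Indecomposable (MonoidAlgebra (ZMod p) G) P.carrier →
    ∃ (n : ℕ) (M : Fin n → FinMod p G), (∀ i, IsReduction (M i)) ∧ cls P = ∑ i, cls (M i)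

end

end Pool.Agent.X326.Dic
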