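import Pool.Agent.X326.Dic.Defs

/-!
# Composition series in the Grothendieck group
-/

set_option autoImplicit false

namespace Pool.Agent.X326.Dic

section

variable {p : ℕ} {G : Type} [Group G]

theorem cls_eq {A B C : FinMod p G} (f : A.carrier →ₗ[MonoidAlgebra (ZMod p) G] B.carrier)
    (g : B.carrier →ₗ[MonoidAlgebra (ZMod p) G] C.carrier) (hf : Function.Injective f)
    (hfg : Function.Exact f g) (hg : Function.Surjective g) : cls B = cls A + cls C := by
  have h : (FreeAbelianGroup.of B - FreeAbelianGroup.of A - FreeAbelianGroup.of C) ∈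
      AddSubgroup.closure (relations p G) :=
    AddSubgroup.subset_closure ⟨A, B, C, ⟨f, g, hf, hfg, hg⟩, rfl⟩
  have h1 : (QuotientAddGroup.mk (FreeAbelianGroup.of B - FreeAbelianGroup.of A -
      FreeAbelianGroup.of C) : G0 p G) = 0 := (QuotientAddGroup.eq_zero_iff _).2 h
  rw [QuotientAddGroup.mk_sub, QuotientAddGroup.mk_sub, sub_sub, sub_eq_zero] at h1
  exact h1

theorem cls_zero (A : FinMod p G) [Subsingleton A.carrier] : cls A = 0 := by
  have h := cls_eq (A := A) (B := A) (C := A) 0 0 (fun _ _ _ => Subsingleton.elim _ _)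
    (fun x => ⟨fun _ => ⟨0, Subsingleton.elim _ _⟩, fun _ => Subsingleton.elim _ _⟩)
    (fun x => ⟨0, Subsingleton.elim _ _⟩)
  exact left_eq_add.1 h

theorem finite_carrier [hp : Fact p.Prime] [Finite G] (M : FinMod p G) : Finite M.carrier := by
  have h1 : Module.Finite (ZMod p) (MonoidAlgebra (ZMod p) G) := inferInstance
  have h2 : Finite (MonoidAlgebra (ZMod p) G) := Module.finite_of_finite (ZMod p)
  exact Module.finite_of_finite (MonoidAlgebra (ZMod p) G)

/-- every module is a sum of simple modules in the Grothendieck group -/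
theorem devissage [hp : Fact p.Prime] [Finite G] (P : FinMod p G → Prop)
    (h : ∀ S : FinMod p G, IsSimpleModule (MonoidAlgebra (ZMod p) G) S.carrier → P S) :
    ∀ (k : ℕ) (B : FinMod p G), Nat.card B.carrier ≤ k →
      ∃ (n : ℕ) (M : Fin n → FinMod p G), (∀ i, P (M i)) ∧ cls B = ∑ i, cls (M i) := by
  intro k
  induction k with
  | zero =>
    intro B hB
    exfalso
    have := finite_carrier B
    have h1 := Nat.card_pos (α := B.carrier)
    omega
  | succ k ih =>
    intro B hB
    have := finite_carrier B
    rcases subsingleton_or_nontrivial B.carrier with h0 | h0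
    · exact ⟨0, Fin.elim0, fun i => i.elim0, by rw [cls_zero]; simp⟩
    · obtain ⟨S, hS⟩ := IsAtomic.exists_atom (Submodule (MonoidAlgebra (ZMod p) G) B.carrier)
      have hS1 := isSimpleModule_iff_isAtom.2 hS
      let A : FinMod p G := ⟨S⟩
      let C : FinMod p G := ⟨B.carrier ⧸ S⟩
      have hc : cls B = cls A + cls C :=
        cls_eq (A := A) (B := B) (C := C) S.subtype S.mkQ S.injective_subtype
          (LinearMap.exact_subtype_mkQ S) S.mkQ_surjective
      have hlt : Nat.card C.carrier ≤ k := by
        have h2 := Submodule.card_eq_card_quotient_mul_card S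
        have h3 : 1 < Nat.card S := by
          have : Nontrivial S := (Submodule.nontrivial_iff_ne_bot).2 hS.1
          exact Finite.one_lt_card
        have h5 : Finite (B.carrier ⧸ S) := Finite.of_surjective S.mkQ S.mkQ_surjective
        have h4 : 0 < Nat.card (B.carrier ⧸ S) := Nat.card_pos
        change Nat.card (B.carrier ⧸ S) ≤ k
        nlinarith
      obtain ⟨n, M, hM, hcM⟩ := ih C hlt
      refine ⟨n + 1, Fin.cons A M, ?_, ?_⟩
      · intro i
        refine Fin.cases ?_ (fun j => ?_) i
        · exact h A hS1
        · exact hM j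
      · rw [hc, hcM, Fin.sum_univ_succ]
        simp

end

end Pool.Agent.X326.Dic
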