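import Pool.Agent.X326.Dic.Defs

/-!
# The group ring of the dicyclic group of order 12 over `ℤ_(2)` is not semiperfect
-/

set_option autoImplicit false

namespace Pool.Agent.X326.Dic

open QuaternionGroup

/-- the table -/
def tab : QuaternionGroup 3 → ℤ × ℤ × ℤ × ℤ
  | a i => (![(1, 0, 0, 0), (1, 1, 0, 0), (0, 1, 0, 0), (-1, 0, 0, 0), (-1, -1, 0, 0),
      (0, -1, 0, 0)] : Fin 6 → ℤ × ℤ × ℤ × ℤ) i
  | xa i => (![(0, 0, 1, 0), (0, 0, 0, -1), (0, 0, -1, -1), (0, 0, -1, 0), (0, 0, 0, 1),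
      (0, 0, 1, 1)] : Fin 6 → ℤ × ℤ × ℤ × ℤ) i

/-- the multiplication -/
def mulZ (a b : ℤ × ℤ × ℤ × ℤ) : ℤ × ℤ × ℤ × ℤ :=
  (a.1 * b.1 - a.2.1 * b.2.1 - a.2.2.1 * b.2.2.1 + a.2.2.1 * b.2.2.2 - a.2.2.2 * b.2.2.2,
   a.1 * b.2.1 + a.2.1 * b.1 - a.2.1 * b.2.1 + a.2.2.1 * b.2.2.2 - a.2.2.2 * b.2.2.1,
   a.1 * b.2.2.1 - a.2.1 * b.2.2.2 + a.2.2.1 * b.1 - a.2.2.1 * b.2.1 + a.2.2.2 * b.2.1,
   a.1 * b.2.2.2 + a.2.1 * b.2.2.1 - a.2.1 * b.2.2.2 - a.2.2.1 * b.2.1 + a.2.2.2 * b.1)

theorem tab_mul' : ∀ i j : ZMod 6,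
    (tab (a (n := 3) i * a j) = mulZ (tab (a (n := 3) i)) (tab (a (n := 3) j))) ∧
    (tab (a (n := 3) i * xa j) = mulZ (tab (a (n := 3) i)) (tab (xa (n := 3) j))) ∧
    (tab (xa (n := 3) i * a j) = mulZ (tab (xa (n := 3) i)) (tab (a (n := 3) j))) ∧
    (tab (xa (n := 3) i * xa j) = mulZ (tab (xa (n := 3) i)) (tab (xa (n := 3) j))) := by
  decide

theorem tab_mul (g h : QuaternionGroup 3) : tab (g * h) = mulZ (tab g) (tab h) := by
  rcases g with i | i <;> rcases h with j | j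
  · exact (tab_mul' i j).1
  · exact (tab_mul' i j).2.1
  · exact (tab_mul' i j).2.2.1
  · exact (tab_mul' i j).2.2.2

/-- the quaternion algebra with `i ^ 2 = - 1 - i`, `j ^ 2 = - 1` -/
abbrev HA (A : Type) [CommRing A] : Type := QuaternionAlgebra A (-1) (-1) (-1)

section

variable (A : Type) [CommRing A]

/-- the group homomorphism -/
def grp : QuaternionGroup 3 →* HA A where
  toFun g := ⟨(tab g).1, (tab g).2.1, (tab g).2.2.1, (tab g).2.2.2⟩
  map_one' := by
    have : tab 1 = (1, 0, 0, 0) := by decide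
    rw [this]
    ext <;> simp
  map_mul' g h := by
    rw [tab_mul]
    ext <;> simp [mulZ] <;> ring

/-- the ring homomorphism -/
noncomputable def psi : MonoidAlgebra A (QuaternionGroup 3) →ₐ[A] HA A :=
  MonoidAlgebra.lift A (HA A) (QuaternionGroup 3) (grp A)

end

/-- functoriality -/
def mapH {A B : Type} [CommRing A] [CommRing B] (φ : A →+* B) : HA A →+* HA B where
  toFun x := ⟨φ x.re, φ x.imI, φ x.imJ, φ x.imK⟩
  map_one' := by ext <;> simp
  map_zero' := by ext <;> simp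
  map_add' x y := by ext <;> simp
  map_mul' x y := by ext <;> simp


theorem mapH_injective {A B : Type} [CommRing A] [CommRing B] (φ : A →+* B)
    (hφ : Function.Injective φ) : Function.Injective (mapH φ) := by
  intro x y h
  have h1 := congrArg (fun z : HA B => z.re) h
  have h2 := congrArg (fun z : HA B => z.imI) h
  have h3 := congrArg (fun z : HA B => z.imJ) h
  have h4 := congrArg (fun z : HA B => z.imK) h
  ext
  · exact hφ h1
  · exact hφ h2
  · exact hφ h3
  · exact hφ h4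

/-- the quaternion algebra over `ℚ` has no nontrivial idempotents -/
theorem idem_rat (e : HA ℚ) (h : e * e = e) : e = 0 ∨ e = 1 := by
  have h1 := congrArg (fun z : HA ℚ => z.re) h
  have h2 := congrArg (fun z : HA ℚ => z.imI) h
  have h3 := congrArg (fun z : HA ℚ => z.imJ) h
  have h4 := congrArg (fun z : HA ℚ => z.imK) h
  simp only [QuaternionAlgebra.re_mul, QuaternionAlgebra.imI_mul, QuaternionAlgebra.imJ_mul,
    QuaternionAlgebra.imK_mul] at h1 h2 h3 h4
  obtain ⟨x, y, z, w⟩ := e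
  simp only at h1 h2 h3 h4
  have e2 : y * (2 * x - y - 1) = 0 := by linarith
  have e3 : z * (2 * x - y - 1) = 0 := by linarith
  have e4 : w * (2 * x - y - 1) = 0 := by linarith
  by_cases h0 : 2 * x - y - 1 = 0
  · exfalso
    have hy : y = 2 * x - 1 := by linarith
    subst hy
    nlinarith [sq_nonneg (2 * x - 1), sq_nonneg (z - w), sq_nonneg z, sq_nonneg w]
  · have hy := (mul_eq_zero.1 e2).resolve_right h0
    have hz := (mul_eq_zero.1 e3).resolve_right h0
    have hw := (mul_eq_zero.1 e4).resolve_right h0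
    subst hy hz hw
    have hx : x * (x - 1) = 0 := by linarith
    rcases mul_eq_zero.1 hx with h5 | h5
    · left
      ext <;> simp [h5]
    · right
      have h6 : x = 1 := by linarith
      ext <;> simp [h6]

/-- idempotents over `ℤ_(2)` -/
theorem idem_loc (e : HA (ZLoc 2)) (h : e * e = e) : e = 0 ∨ e = 1 := by
  have hinj := mapH_injective (ZLoc 2).subtype (ZLoc 2).subtype_injective
  rcases idem_rat (mapH (ZLoc 2).subtype e) (by rw [← map_mul, h]) with h1 | h1
  · left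
    exact hinj (by rw [h1, map_zero])
  · right
    exact hinj (by rw [h1, map_one])

/-- the residue map -/
def red (p : ℕ) [hp : Fact p.Prime] : ZLoc p →+* ZMod p where
  toFun q := ((q : ℚ) : ZMod p)
  map_one' := by simp
  map_zero' := by simp
  map_add' x y := by
    have hx : ((x : ℚ).den : ZMod p) ≠ 0 := by
      rw [Ne, ZMod.natCast_eq_zero_iff]
      exact x.2
    have hy : ((y : ℚ).den : ZMod p) ≠ 0 := by
      rw [Ne, ZMod.natCast_eq_zero_iff]
      exact y.2
    push_cast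
    exact Rat.cast_add_of_ne_zero hx hy
  map_mul' x y := by
    have hx : ((x : ℚ).den : ZMod p) ≠ 0 := by
      rw [Ne, ZMod.natCast_eq_zero_iff]
      exact x.2
    have hy : ((y : ℚ).den : ZMod p) ≠ 0 := by
      rw [Ne, ZMod.natCast_eq_zero_iff]
      exact y.2
    push_cast
    exact Rat.cast_mul_of_ne_zero hx hy

theorem red_ne {p : ℕ} [hp : Fact p.Prime] (q : ZLoc p) : ((q : ℚ).den : ZMod p) ≠ 0 := by
  rw [Ne, ZMod.natCast_eq_zero_iff]
  exact q.2

theorem red_eq_zero {p : ℕ} [hp : Fact p.Prime] (q : ZLoc p) (h : red p q = 0) :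
    ∃ q' : ZLoc p, q = (p : ZLoc p) * q' := by
  change ((q : ℚ) : ZMod p) = 0 at h
  rw [Rat.cast_def, div_eq_zero_iff] at h
  have h1 := h.resolve_right (red_ne q)
  rw [ZMod.intCast_zmod_eq_zero_iff_dvd] at h1
  obtain ⟨k, hk⟩ := h1
  have hd : ((q : ℚ).den : ℚ) ≠ 0 := by exact_mod_cast (q : ℚ).den_nz
  have hmem : (k : ℚ) / (q : ℚ).den ∈ ZLoc p := by
    change ¬ p ∣ ((k : ℚ) / (q : ℚ).den).den
    intro h2
    apply q.2
    have h3 : ((((k : ℚ) / (q : ℚ).den).den : ℕ) : ℤ) ∣ ((q : ℚ).den : ℤ) := by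
      have h5 := Rat.den_dvd k ((q : ℚ).den : ℤ)
      rw [Rat.divInt_eq_div] at h5
      simpa using h5
    exact h2.trans (by exact_mod_cast h3)
  refine ⟨⟨_, hmem⟩, ?_⟩
  apply Subtype.ext
  push_cast
  have h4 : (q : ℚ) = (q : ℚ).num / (q : ℚ).den := (Rat.num_div_den _).symm
  rw [hk] at h4
  push_cast at h4
  rw [mul_div_assoc] at h4
  exact h4

theorem red_surjective (p : ℕ) [hp : Fact p.Prime] : Function.Surjective (red p) := by
  intro x
  refine ⟨((x.val : ℕ) : ZLoc p), ?_⟩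
  rw [map_natCast, ZMod.natCast_zmod_val]

end Pool.Agent.X326.Dic
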