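import Pool.Agent.X326.Dic.Neg

/-!
# The group ring of the dicyclic group of order 12 over `ℤ_(2)` is not semiperfect
-/

set_option autoImplicit false

namespace Pool.Agent.X326.Dic

open QuaternionGroup

/-- inverse of a unit -/
theorem inv_mem {p : ℕ} [hp : Fact p.Prime] (q : ZLoc p) (h : red p q ≠ 0) :
    ((q : ℚ))⁻¹ ∈ ZLoc p := by
  change ¬ p ∣ ((q : ℚ))⁻¹.den
  intro h2
  apply h
  change ((q : ℚ) : ZMod p) = 0
  rw [Rat.cast_def]
  have h3 : ((((q : ℚ))⁻¹.den : ℕ) : ℤ) ∣ (q : ℚ).num := by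
    have h5 := Rat.den_dvd ((q : ℚ).den : ℤ) (q : ℚ).num
    rw [Rat.divInt_eq_div] at h5
    have h6 : (((q : ℚ).den : ℤ) : ℚ) / ((q : ℚ).num : ℚ) = (q : ℚ)⁻¹ := by
      conv_rhs => rw [← Rat.num_div_den (q : ℚ)]
      rw [inv_div]
      simp
    rw [h6] at h5
    exact h5
  have h7 : ((p : ℕ) : ℤ) ∣ (q : ℚ).num := (Int.natCast_dvd_natCast.2 h2).trans h3
  rw [(ZMod.intCast_zmod_eq_zero_iff_dvd _ _).2 h7, zero_div]

/-- the ideal generated by `p` is in the radical -/
theorem span_le_jacobson (p : ℕ) [hp : Fact p.Prime] :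
    Ideal.span {(p : ZLoc p)} ≤ Ideal.jacobson ⊥ := by
  rw [Ideal.span_singleton_le_iff_mem, Ideal.mem_jacobson_iff]
  intro y
  have h : red p (1 + y * p) ≠ 0 := by
    rw [map_add, map_mul, map_one, map_natCast, ZMod.natCast_self, mul_zero, add_zero]
    exact one_ne_zero
  refine ⟨⟨_, inv_mem _ h⟩, ?_⟩
  rw [Ideal.mem_bot]
  have h8 : ((1 + y * p : ZLoc p) : ℚ) ≠ 0 := by
    intro h9
    apply h
    have : (1 + y * p : ZLoc p) = 0 := Subtype.ext h9
    rw [this, map_zero]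
  apply Subtype.ext
  push_cast at h8 ⊢
  field_simp
  ring

/-- `p A` is in the radical of `A` for the finite algebras `A` -/
theorem smul_mem_jacobson (p : ℕ) [hp : Fact p.Prime] {A : Type} [Ring A] [Algebra (ZLoc p) A]
    [Module.Finite (ZLoc p) A] (t : A) : (p : ZLoc p) • t ∈ Ring.jacobson A := by
  rw [← Ideal.jacobson_bot, Ideal.mem_jacobson_iff]
  intro y
  have key : (⊤ : Submodule (ZLoc p) A) ≤
      LinearMap.range (LinearMap.mulRight (ZLoc p) (1 + y * ((p : ZLoc p) • t))) := by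
    apply Submodule.le_of_le_smul_of_le_jacobson_bot Module.Finite.fg_top (span_le_jacobson p)
    intro r _
    rw [Submodule.mem_sup]
    refine ⟨r * (1 + y * ((p : ZLoc p) • t)), ⟨r, rfl⟩, (p : ZLoc p) • (- (r * (y * t))), ?_, ?_⟩
    · exact Submodule.smul_mem_smul (Ideal.mem_span_singleton_self _) trivial
    · rw [mul_add, mul_one, mul_smul_comm, mul_smul_comm, smul_neg]
      abel
  obtain ⟨z, hz⟩ := key (x := 1) trivial
  refine ⟨z, ?_⟩
  rw [Ideal.mem_bot]
  rw [LinearMap.mulRight_apply] at hz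
  rw [mul_add, mul_one] at hz
  rw [mul_assoc, add_comm, hz, sub_self]

/-- an idempotent of the radical is zero -/
theorem idem_jacobson {A : Type} [Ring A] {z : A} (hz : z ∈ Ring.jacobson A) (h : z * z = z) :
    z = 0 := by
  rw [← Ideal.jacobson_bot, Ideal.mem_jacobson_iff] at hz
  obtain ⟨w, hw⟩ := hz (-1)
  rw [Ideal.mem_bot] at hw
  have h1 : w * (1 - z) = 1 := by
    have : w * (1 - z) = w * (-1) * z + w := by noncomm_ring
    rw [this]
    exact sub_eq_zero.1 hw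
  have h2 : (1 - z) * z = 0 := by
    rw [sub_mul, one_mul, h, sub_self]
  calc z = (w * (1 - z)) * z := by rw [h1, one_mul]
    _ = 0 := by rw [mul_assoc, h2, mul_zero]

/-- the multiplication over `ZMod 2` -/
def mulB (a b : ZMod 2 × ZMod 2 × ZMod 2 × ZMod 2) : ZMod 2 × ZMod 2 × ZMod 2 × ZMod 2 :=
  (a.1 * b.1 - a.2.1 * b.2.1 - a.2.2.1 * b.2.2.1 + a.2.2.1 * b.2.2.2 - a.2.2.2 * b.2.2.2,
   a.1 * b.2.1 + a.2.1 * b.1 - a.2.1 * b.2.1 + a.2.2.1 * b.2.2.2 - a.2.2.2 * b.2.2.1,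
   a.1 * b.2.2.1 - a.2.1 * b.2.2.2 + a.2.2.1 * b.1 - a.2.2.1 * b.2.1 + a.2.2.2 * b.2.1,
   a.1 * b.2.2.2 + a.2.1 * b.2.2.1 - a.2.1 * b.2.2.2 - a.2.2.1 * b.2.1 + a.2.2.2 * b.1)

theorem mulB_idem : ∀ x : ZMod 2 × ZMod 2 × ZMod 2 × ZMod 2, x ≠ 0 →
    ∃ y : ZMod 2 × ZMod 2 × ZMod 2 × ZMod 2,
      mulB (mulB y x) (mulB y x) = mulB y x ∧ mulB y x ≠ 0 := by
  decide

/-- the quadruple -/
def toB (x : ZMod 2 × ZMod 2 × ZMod 2 × ZMod 2) : HA (ZMod 2) := ⟨x.1, x.2.1, x.2.2.1, x.2.2.2⟩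

theorem toB_mul (x y : ZMod 2 × ZMod 2 × ZMod 2 × ZMod 2) :
    toB x * toB y = toB (mulB x y) := by
  apply QuaternionAlgebra.ext <;>
    simp only [mulB, toB, QuaternionAlgebra.re_mul, QuaternionAlgebra.imI_mul,
      QuaternionAlgebra.imJ_mul, QuaternionAlgebra.imK_mul] <;>
    ring

theorem toB_eq_zero {x : ZMod 2 × ZMod 2 × ZMod 2 × ZMod 2} (h : toB x = 0) : x = 0 := by
  have h1 := congrArg (fun z : HA (ZMod 2) => z.re) h
  have h2 := congrArg (fun z : HA (ZMod 2) => z.imI) h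
  have h3 := congrArg (fun z : HA (ZMod 2) => z.imJ) h
  have h4 := congrArg (fun z : HA (ZMod 2) => z.imK) h
  ext
  · exact h1
  · exact h2
  · exact h3
  · exact h4

/-- the radical of the residue algebra is zero -/
theorem jacobson_B (x : HA (ZMod 2)) (hx : x ∈ Ring.jacobson (HA (ZMod 2))) : x = 0 := by
  by_contra h
  have hx0 : x = toB (x.re, x.imI, x.imJ, x.imK) := rfl
  have h0 : (x.re, x.imI, x.imJ, x.imK) ≠ 0 := by
    intro h1
    rw [h1] at hx0
    apply h
    rw [hx0]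
    ext <;> simp [toB]
  obtain ⟨y, hy1, hy2⟩ := mulB_idem _ h0
  apply hy2
  apply toB_eq_zero
  apply idem_jacobson
  · rw [← toB_mul, ← hx0]
    exact Ideal.mul_mem_left _ _ hx
  · rw [toB_mul, hy1]

/-- the element of the group ring with the given integral coefficients -/
noncomputable def el {A G : Type} [CommRing A] [Group G] [Fintype G] (f : G → ℤ) :
    MonoidAlgebra A G :=
  ∑ g, MonoidAlgebra.single g (f g : A)

theorem el_mul {A G : Type} [CommRing A] [Group G] [Fintype G] (f f' : G → ℤ) :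
    (el f * el f' : MonoidAlgebra A G) = el (fun g => ∑ h, f h * f' (h⁻¹ * g)) := by
  unfold el
  rw [Finset.sum_mul_sum]
  have h1 : ∀ h : G, ∑ k, MonoidAlgebra.single h (f h : A) * MonoidAlgebra.single k (f' k : A) =
      ∑ g, MonoidAlgebra.single g (((f h * f' (h⁻¹ * g) : ℤ)) : A) := by
    intro h
    refine Fintype.sum_equiv (Equiv.mulLeft h) _ _ ?_
    intro k
    rw [MonoidAlgebra.single_mul_single]
    simp
  rw [Finset.sum_congr rfl (fun h _ => h1 h), Finset.sum_comm]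
  refine Finset.sum_congr rfl (fun g _ => ?_)
  rw [Int.cast_sum]
  induction (Finset.univ : Finset G) using Finset.cons_induction with
  | empty => simp
  | cons a s ha ih => rw [Finset.sum_cons, Finset.sum_cons, ih, MonoidAlgebra.single_add]

/-- the coefficients of `r` -/
def fr : QuaternionGroup 3 → ℤ
  | a i => (![0, 1, 1, 0, 0, 1] : Fin 6 → ℤ) i
  | xa i => (![1, 0, 1, 0, 0, 0] : Fin 6 → ℤ) i

/-- the coefficients of `s` -/
def fs : QuaternionGroup 3 → ℤ
  | a i => (![1, 1, 0, 2, 1, 0] : Fin 6 → ℤ) i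
  | xa i => (![0, 2, 0, 1, 1, 1] : Fin 6 → ℤ) i

theorem fr_sq : ∀ g : QuaternionGroup 3, ∑ h, fr h * fr (h⁻¹ * g) = 2 * fs g + fr g := by
  decide

theorem el_add {A G : Type} [CommRing A] [Group G] [Fintype G] (f f' : G → ℤ) :
    (el (fun g => f g + f' g) : MonoidAlgebra A G) = el f + el f' := by
  unfold el
  rw [← Finset.sum_add_distrib]
  refine Finset.sum_congr rfl (fun g _ => ?_)
  rw [Int.cast_add, MonoidAlgebra.single_add]

theorem el_two {A G : Type} [CommRing A] [Group G] [Fintype G] (f : G → ℤ) :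
    (el (fun g => 2 * f g) : MonoidAlgebra A G) = (2 : A) • el f := by
  unfold el
  rw [Finset.smul_sum]
  refine Finset.sum_congr rfl (fun g _ => ?_)
  rw [MonoidAlgebra.smul_single]
  simp

theorem psi_single (A : Type) [CommRing A] (g : QuaternionGroup 3) (c : A) :
    psi A (MonoidAlgebra.single g c) = c • grp A g := by
  unfold psi
  exact MonoidAlgebra.lift_single _ _ _

theorem psi_el (A : Type) [CommRing A] (f : QuaternionGroup 3 → ℤ) :
    psi A (el f) = ⟨((∑ g, f g * (tab g).1 : ℤ) : A), ((∑ g, f g * (tab g).2.1 : ℤ) : A),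
      ((∑ g, f g * (tab g).2.2.1 : ℤ) : A), ((∑ g, f g * (tab g).2.2.2 : ℤ) : A)⟩ := by
  unfold el
  rw [map_sum]
  simp only [psi_single]
  induction (Finset.univ : Finset (QuaternionGroup 3)) using Finset.cons_induction with
  | empty => ext <;> simp
  | cons a s ha ih =>
    simp only [Finset.sum_cons, ih, Int.cast_add, Int.cast_mul]
    ext <;> simp [grp]

/-- the map to the residue algebra -/
noncomputable def pi2 : MonoidAlgebra (ZLoc 2) (QuaternionGroup 3) →+* HA (ZMod 2) :=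
  (mapH (red 2)).comp (psi (ZLoc 2)).toRingHom

theorem pi2_apply (x : MonoidAlgebra (ZLoc 2) (QuaternionGroup 3)) :
    pi2 x = mapH (red 2) (psi (ZLoc 2) x) := rfl

theorem pi2_surjective : Function.Surjective pi2 := by
  intro x
  obtain ⟨c0, h0⟩ := red_surjective 2 x.re
  obtain ⟨c1, h1⟩ := red_surjective 2 x.imI
  obtain ⟨c2, h2⟩ := red_surjective 2 x.imJ
  obtain ⟨c3, h3⟩ := red_surjective 2 x.imK
  refine ⟨MonoidAlgebra.single 1 c0 + MonoidAlgebra.single (a 2) c1 +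
    MonoidAlgebra.single (xa 0) c2 + MonoidAlgebra.single (xa 4) c3, ?_⟩
  rw [pi2_apply]
  simp only [map_add, psi_single]
  have t0 : tab 1 = (1, 0, 0, 0) := by decide
  have t1 : tab (a (n := 3) 2) = (0, 1, 0, 0) := by decide
  have t2 : tab (xa (n := 3) 0) = (0, 0, 1, 0) := by decide
  have t3 : tab (xa (n := 3) 4) = (0, 0, 0, 1) := by decide
  ext <;> simp [grp, mapH, t0, t1, t2, t3, h0, h1, h2, h3]

/-- the element `r` -/
noncomputable def rr : MonoidAlgebra (ZLoc 2) (QuaternionGroup 3) := el fr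

theorem rr_mem : rr * rr - rr ∈ Ring.jacobson (MonoidAlgebra (ZLoc 2) (QuaternionGroup 3)) := by
  have h : rr * rr = el (fun g => 2 * fs g + fr g) := by
    unfold rr
    rw [el_mul]
    congr 1
    funext g
    exact fr_sq g
  rw [h, el_add, el_two]
  unfold rr
  rw [add_sub_cancel_right]
  exact smul_mem_jacobson 2 _

theorem pi2_rr : pi2 rr = ⟨1, 1, 0, 1⟩ := by
  rw [pi2_apply]
  unfold rr
  rw [psi_el]
  have s0 : ∑ g, fr g * (tab g).1 = 1 := by decide
  have s1 : ∑ g, fr g * (tab g).2.1 = 1 := by decide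
  have s2 : ∑ g, fr g * (tab g).2.2.1 = 0 := by decide
  have s3 : ∑ g, fr g * (tab g).2.2.2 = -1 := by decide
  rw [s0, s1, s2, s3]
  ext <;> simp [mapH]

theorem not_semiperfect : ¬ IsSemiperfect (MonoidAlgebra (ZLoc 2) (QuaternionGroup 3)) := by
  rintro ⟨-, h⟩
  obtain ⟨e, he, her⟩ := h rr rr_mem
  have h1 : pi2 (e - rr) = 0 := by
    apply jacobson_B
    have : RingHomSurjective pi2 := ⟨pi2_surjective⟩
    exact Ring.le_comap_jacobson pi2 her
  rw [map_sub, sub_eq_zero, pi2_rr, pi2_apply] at h1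
  have h2 : psi (ZLoc 2) e * psi (ZLoc 2) e = psi (ZLoc 2) e := by
    rw [← map_mul, he]
  rcases idem_loc _ h2 with h3 | h3
  · rw [h3, map_zero] at h1
    have h4 := congrArg (fun z : HA (ZMod 2) => z.re) h1
    simp at h4
  · rw [h3, map_one] at h1
    have h4 := congrArg (fun z : HA (ZMod 2) => z.imI) h1
    simp at h4

end Pool.Agent.X326.Dic
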