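import Pool.Agent.X326.Dic.Neg

/-!
# Reductions from integral matrix representations
-/

set_option autoImplicit false

namespace Pool.Agent.X326.Dic

/-- the rational representation of an integral matrix representation -/
noncomputable def ratRep {G : Type} [Group G] {n : ℕ} (M : G →* Matrix (Fin n) (Fin n) ℤ) :
    Representation ℚ G (Fin n → ℚ) :=
  (Matrix.toLinAlgEquiv' (R := ℚ) (n := Fin n)).toAlgHom.toRingHom.toMonoidHom.comp
    ((Int.castRingHom ℚ).mapMatrix.toMonoidHom.comp M)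

theorem ratRep_apply {G : Type} [Group G] {n : ℕ} (M : G →* Matrix (Fin n) (Fin n) ℤ) (g : G)
    (v : Fin n → ℚ) (i : Fin n) : ratRep M g v i = ∑ j, (M g i j : ℚ) * v j := by
  unfold ratRep
  simp [Matrix.mulVec, dotProduct]

/-- the standard lattice -/
def Lat (p n : ℕ) [Fact p.Prime] : Submodule (ZLoc p) (Fin n → ℚ) where
  carrier := {v | ∀ i, v i ∈ ZLoc p}
  add_mem' ha hb i := (ZLoc p).add_mem (ha i) (hb i)
  zero_mem' _ := (ZLoc p).zero_mem
  smul_mem' c _ hv i := (ZLoc p).mul_mem c.2 (hv i)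

theorem Lat_fg (p n : ℕ) [Fact p.Prime] : (Lat p n).FG := by
  have h : Lat p n = LinearMap.range ((Algebra.linearMap (ZLoc p) ℚ).compLeft (Fin n)) := by
    ext v
    constructor
    · intro hv
      exact ⟨fun i => ⟨v i, hv i⟩, rfl⟩
    · rintro ⟨w, rfl⟩ i
      exact (w i).2
  rw [h, LinearMap.range_eq_map]
  exact Module.Finite.fg_top.map _

theorem Lat_span (p n : ℕ) [Fact p.Prime] :
    Submodule.span ℚ (Lat p n : Set (Fin n → ℚ)) = ⊤ := by
  rw [eq_top_iff]
  intro v _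
  rw [pi_eq_sum_univ' v]
  refine Submodule.sum_mem _ (fun i _ => Submodule.smul_mem _ _ (Submodule.subset_span ?_))
  intro j
  by_cases h : j = i
  · subst h
    rw [Pi.single_eq_same]
    exact (ZLoc p).one_mem
  · rw [Pi.single_eq_of_ne h]
    exact (ZLoc p).zero_mem

section

variable {p : ℕ} [hp : Fact p.Prime] {G : Type} [Group G]

theorem intCast_smul (S : FinMod p G) (c : ℤ) (s : S.carrier) :
    algebraMap (ZMod p) (MonoidAlgebra (ZMod p) G) (c : ZMod p) • s = c • s := by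
  rw [map_intCast, Int.cast_smul_eq_zsmul]

/-- the reduction map -/
noncomputable def fmap (S : FinMod p G) {n : ℕ} (b : Fin n → S.carrier) :
    Lat p n →+ S.carrier where
  toFun v := ∑ i, algebraMap (ZMod p) (MonoidAlgebra (ZMod p) G)
    (red p ⟨(v : Fin n → ℚ) i, v.2 i⟩) • b i
  map_zero' := by
    refine Finset.sum_eq_zero (fun i _ => ?_)
    have : (⟨((0 : Lat p n) : Fin n → ℚ) i, (0 : Lat p n).2 i⟩ : ZLoc p) = 0 := rfl
    rw [this, map_zero, map_zero, zero_smul]
  map_add' v w := by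
    rw [← Finset.sum_add_distrib]
    refine Finset.sum_congr rfl (fun i _ => ?_)
    have : (⟨((v + w : Lat p n) : Fin n → ℚ) i, (v + w : Lat p n).2 i⟩ : ZLoc p) =
      ⟨(v : Fin n → ℚ) i, v.2 i⟩ + ⟨(w : Fin n → ℚ) i, w.2 i⟩ := rfl
    rw [this, map_add, map_add, add_smul]

theorem fmap_apply (S : FinMod p G) {n : ℕ} (b : Fin n → S.carrier) (v : Lat p n) :
    fmap S b v = ∑ i, algebraMap (ZMod p) (MonoidAlgebra (ZMod p) G)
      (red p ⟨(v : Fin n → ℚ) i, v.2 i⟩) • b i := rfl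

theorem ratRep_mem {n : ℕ} (M : G →* Matrix (Fin n) (Fin n) ℤ) (g : G) (v : Fin n → ℚ)
    (hv : v ∈ Lat p n) : ratRep M g v ∈ Lat p n := by
  intro i
  rw [ratRep_apply]
  exact (ZLoc p).sum_mem (fun j _ => (ZLoc p).mul_mem (intCast_mem _ _) (hv j))

theorem red_intCast (c : ℤ) (h : (c : ℚ) ∈ ZLoc p) : red p ⟨(c : ℚ), h⟩ = (c : ZMod p) := by
  have : (⟨(c : ℚ), h⟩ : ZLoc p) = (c : ZLoc p) := by
    apply Subtype.ext
    push_cast
    rfl
  rw [this, map_intCast]

theorem fmap_equiv (S : FinMod p G) {n : ℕ} (M : G →* Matrix (Fin n) (Fin n) ℤ)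
    (b : Fin n → S.carrier)
    (h1 : ∀ g j, MonoidAlgebra.single g (1 : ZMod p) • b j = ∑ i, M g i j • b i) (g : G)
    (x : Lat p n) : fmap S b ⟨ratRep M g x, ratRep_mem M g x x.2⟩ =
      MonoidAlgebra.single g (1 : ZMod p) • fmap S b x := by
  rw [fmap_apply, fmap_apply, Finset.smul_sum]
  have e1 : ∀ j, MonoidAlgebra.single g (1 : ZMod p) •
      algebraMap (ZMod p) (MonoidAlgebra (ZMod p) G) (red p ⟨(x : Fin n → ℚ) j, x.2 j⟩) • b j =
      ∑ i, algebraMap (ZMod p) (MonoidAlgebra (ZMod p) G)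
        ((M g i j : ZMod p) * red p ⟨(x : Fin n → ℚ) j, x.2 j⟩) • b i := by
    intro j
    rw [← mul_smul, ← Algebra.commutes, mul_smul, h1, Finset.smul_sum]
    refine Finset.sum_congr rfl (fun i _ => ?_)
    rw [mul_comm, map_mul, mul_smul, intCast_smul]
  rw [Finset.sum_congr rfl (fun j _ => e1 j), Finset.sum_comm]
  refine Finset.sum_congr rfl (fun i _ => ?_)
  rw [← Finset.sum_smul, ← map_sum]
  congr 2
  have e2 : (⟨ratRep M g (x : Fin n → ℚ) i, ratRep_mem M g x x.2 i⟩ : ZLoc p) =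
      ∑ j, (⟨((M g i j : ℤ) : ℚ), intCast_mem _ _⟩ : ZLoc p) * ⟨(x : Fin n → ℚ) j, x.2 j⟩ := by
    apply Subtype.ext
    simp only [ratRep_apply]
    push_cast
    rfl
  change red p (⟨ratRep M g (x : Fin n → ℚ) i, ratRep_mem M g x x.2 i⟩ : ZLoc p) = _
  rw [e2, map_sum]
  refine Finset.sum_congr rfl (fun j _ => ?_)
  rw [map_mul, red_intCast]

/-- a module with a basis on which the group acts by the reduction of integral matrices is a
reduction -/
theorem isReduction_of_basis (S : FinMod p G) (n : ℕ) (M : G →* Matrix (Fin n) (Fin n) ℤ)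
    (b : Fin n → S.carrier)
    (h1 : ∀ g j, MonoidAlgebra.single g (1 : ZMod p) • b j = ∑ i, M g i j • b i)
    (h2 : ∀ s, ∃ c : Fin n → ℤ, s = ∑ i, c i • b i)
    (h3 : ∀ c : Fin n → ℤ, ∑ i, c i • b i = 0 → ∀ i, (p : ℤ) ∣ c i)
    (h4 : (ratRep M).IsIrreducible) : IsReduction S := by
  refine ⟨Fin n → ℚ, inferInstance, inferInstance, ratRep M, h4, Lat p n,
    fmap S b, Lat_fg p n, Lat_span p n, ?_, ?_, ?_⟩
  · intro s
    obtain ⟨c, hc⟩ := h2 s
    refine ⟨⟨fun i => (c i : ℚ), fun i => intCast_mem _ _⟩, ?_⟩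
    rw [fmap_apply, hc]
    refine Finset.sum_congr rfl (fun i _ => ?_)
    rw [red_intCast, intCast_smul]
  · intro g x0 hx0
    refine ⟨ratRep_mem M g x0 hx0, ?_⟩
    have key : ∀ x : Lat p n, fmap S b ⟨ratRep M g x, ratRep_mem M g x x.2⟩ =
        MonoidAlgebra.single g (1 : ZMod p) • fmap S b x := fmap_equiv S M b h1 g
    exact key ⟨x0, hx0⟩
  · intro x
    constructor
    · intro hx
      rw [fmap_apply] at hx
      have e3 : ∀ i, (p : ℤ) ∣ ((red p ⟨(x : Fin n → ℚ) i, x.2 i⟩).val : ℤ) := by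
        apply h3
        rw [← hx]
        refine Finset.sum_congr rfl (fun i _ => ?_)
        rw [← intCast_smul]
        congr 2
        simp
      have e4 : ∀ i, red p ⟨(x : Fin n → ℚ) i, x.2 i⟩ = 0 := by
        intro i
        have h5 := (ZMod.intCast_zmod_eq_zero_iff_dvd _ p).2 (e3 i)
        simpa using h5
      choose y hy using fun i => red_eq_zero _ (e4 i)
      refine ⟨⟨fun i => (y i : ℚ), fun i => (y i).2⟩, ?_⟩
      apply Subtype.ext
      funext i
      have h6 := congrArg (fun q : ZLoc p => (q : ℚ)) (hy i)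
      simp only at h6
      rw [h6]
      push_cast
      rfl
    · rintro ⟨y, rfl⟩
      rw [Nat.cast_smul_eq_nsmul, map_nsmul]
      have h7 : ((p : ℕ) : ℤ) • fmap S b y = 0 := by
        rw [← intCast_smul]
        simp
      rw [← natCast_zsmul]
      exact h7

end

end Pool.Agent.X326.Dic
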