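import Pool.Agent.X326.Dic.Pos
import Pool.Agent.X326.Dic.Dev

/-!
# The simple modules of the dicyclic group of order 12 over `𝔽_2` are reductions
-/

set_option autoImplicit false

namespace Pool.Agent.X326.Dic

open QuaternionGroup

theorem irr_of {G V : Type} [Group G] [AddCommGroup V] [Module ℚ V] [Nontrivial V]
    (ρ : Representation ℚ G V)
    (h : ∀ U : Submodule ℚ V, (∀ g, ∀ v ∈ U, ρ g v ∈ U) → ∀ v ∈ U, v ≠ 0 → U = ⊤) :
    ρ.IsIrreducible where
  exists_pair_ne := by
    refine ⟨⊥, ⊤, ?_⟩
    intro h0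
    obtain ⟨v, hv⟩ := exists_ne (0 : V)
    have h1 : v ∈ (⊥ : Subrepresentation ρ).toSubmodule := by
      rw [h0]
      exact Submodule.mem_top
    exact hv h1
  eq_bot_or_eq_top σ := by
    by_cases h0 : ∃ v ∈ σ.toSubmodule, v ≠ 0
    · right
      obtain ⟨v, hv, hv0⟩ := h0
      apply Subrepresentation.toSubmodule_injective
      exact h σ.toSubmodule (fun g v hv => σ.apply_mem_toSubmodule g hv) v hv hv0
    · left
      push Not at h0
      apply Subrepresentation.toSubmodule_injective
      ext v
      constructor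
      · intro hv
        exact h0 v hv
      · intro hv
        have : v = 0 := hv
        rw [this]
        exact Submodule.zero_mem _

/-- generators of the group -/
theorem gen_ind (P : QuaternionGroup 3 → Prop) (h1 : P 1) (hm : ∀ g h, P g → P h → P (g * h))
    (h2 : P (a 2)) (h3 : P (a 3)) (hx : P (xa 0)) (g : QuaternionGroup 3) : P g := by
  have hp : ∀ (g : QuaternionGroup 3) (k : ℕ), P g → P (g ^ k) := by
    intro g k hg
    induction k with
    | zero => rw [pow_zero]; exact h1
    | succ k ih => rw [pow_succ]; exact hm _ _ ih hg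
  have hd : ∀ g : QuaternionGroup 3, ∃ (k : Fin 3) (l : Fin 2) (m : Fin 2),
      g = (a 2) ^ (k : ℕ) * (a 3) ^ (l : ℕ) * (xa 0) ^ (m : ℕ) := by
    decide
  obtain ⟨k, l, m, hg⟩ := hd g
  rw [hg]
  exact hm _ _ (hm _ _ (hp _ _ h2) (hp _ _ h3)) (hp _ _ hx)

/-- the matrices -/
def mt : QuaternionGroup 3 → Matrix (Fin 2) (Fin 2) ℤ
  | a i => (![1, !![-1, 1; -1, 0], !![0, -1; 1, -1], 1, !![-1, 1; -1, 0], !![0, -1; 1, -1]] :
      Fin 6 → Matrix (Fin 2) (Fin 2) ℤ) i
  | xa i => (![!![1, -1; 0, -1], !![0, 1; 1, 0], !![-1, 0; -1, 1], !![1, -1; 0, -1],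
      !![0, 1; 1, 0], !![-1, 0; -1, 1]] : Fin 6 → Matrix (Fin 2) (Fin 2) ℤ) i

theorem mt_mul' : ∀ i j : ZMod 6,
    (mt (a (n := 3) i * a j) = mt (a (n := 3) i) * mt (a (n := 3) j)) ∧
    (mt (a (n := 3) i * xa j) = mt (a (n := 3) i) * mt (xa (n := 3) j)) ∧
    (mt (xa (n := 3) i * a j) = mt (xa (n := 3) i) * mt (a (n := 3) j)) ∧
    (mt (xa (n := 3) i * xa j) = mt (xa (n := 3) i) * mt (xa (n := 3) j)) := by
  decide

/-- the representation by integral matrices -/
def MT : QuaternionGroup 3 →* Matrix (Fin 2) (Fin 2) ℤ where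
  toFun := mt
  map_one' := by decide
  map_mul' g h := by
    rcases g with i | i <;> rcases h with j | j
    · exact (mt_mul' i j).1
    · exact (mt_mul' i j).2.1
    · exact (mt_mul' i j).2.2.1
    · exact (mt_mul' i j).2.2.2

theorem MT_irr : (ratRep MT).IsIrreducible := by
  apply irr_of
  intro U hU v hv hv0
  have hA : ∀ w : Fin 2 → ℚ, w ∈ U → (![-(w 1), w 0 - w 1] : Fin 2 → ℚ) ∈ U := by
    intro w hw
    have h := hU (a 2) w hw
    have h2 : ratRep MT (a 2) w = ![-(w 1), w 0 - w 1] := by
      have e : MT (a 2) = !![0, -1; 1, -1] := rfl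
      funext i
      rw [ratRep_apply, e]
      fin_cases i <;> simp [Fin.sum_univ_two] <;> ring
    rwa [h2] at h
  have hX : ∀ w : Fin 2 → ℚ, w ∈ U → (![2 * w 0 - w 1, 0] : Fin 2 → ℚ) ∈ U := by
    intro w hw
    have h := U.add_mem hw (hU (xa 0) w hw)
    have h2 : w + ratRep MT (xa 0) w = ![2 * w 0 - w 1, 0] := by
      have e : MT (xa 0) = !![1, -1; 0, -1] := rfl
      funext i
      rw [Pi.add_apply, ratRep_apply, e]
      fin_cases i <;> simp [Fin.sum_univ_two] <;> ring
    rwa [h2] at h
  have hfin : ∀ x : ℚ, x ≠ 0 → (![x, 0] : Fin 2 → ℚ) ∈ U → U = ⊤ := by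
    intro x hx hxU
    have h1 : (![1, 0] : Fin 2 → ℚ) ∈ U := by
      have := U.smul_mem x⁻¹ hxU
      simpa [hx] using this
    have h2 := hA _ h1
    rw [eq_top_iff]
    intro w _
    have h3 : w = w 0 • (![1, 0] : Fin 2 → ℚ) + w 1 • (![0, 1] : Fin 2 → ℚ) := by
      funext i
      fin_cases i <;> simp
    rw [h3]
    refine U.add_mem (U.smul_mem _ h1) (U.smul_mem _ ?_)
    simpa using h2
  by_cases h : 2 * v 0 - v 1 = 0
  · have h1 := hX _ (hA _ hv)
    refine hfin _ ?_ h1
    have h2 : v 1 = 2 * v 0 := by linarith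
    simp only [Matrix.cons_val_zero, Matrix.cons_val_one]
    intro h3
    apply hv0
    rw [h2] at h3
    have h4 : v 0 = 0 := by linarith
    funext i
    fin_cases i
    · simpa using h4
    · simp [h2, h4]
  · exact hfin _ h (hX _ hv)

theorem one_irr {G : Type} [Group G] :
    (ratRep (1 : G →* Matrix (Fin 1) (Fin 1) ℤ)).IsIrreducible := by
  apply irr_of
  intro U _ v hv hv0
  have h0 : v 0 ≠ 0 := by
    intro h
    apply hv0
    funext i
    fin_cases i
    exact h
  rw [eq_top_iff]
  intro w _
  have h : w = (w 0 * (v 0)⁻¹) • v := by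
    funext i
    fin_cases i
    simp [h0]
  rw [h]
  exact U.smul_mem _ hv

section

variable (S : FinMod 2 (QuaternionGroup 3))

/-- the action -/
noncomputable def act (g : QuaternionGroup 3) (s : S.carrier) : S.carrier :=
  MonoidAlgebra.single g (1 : ZMod 2) • s

theorem act_one (s : S.carrier) : act S 1 s = s := by
  unfold act
  rw [← MonoidAlgebra.one_def, one_smul]

theorem act_mul (g h : QuaternionGroup 3) (s : S.carrier) :
    act S (g * h) s = act S g (act S h s) := by
  unfold act
  rw [← mul_smul, MonoidAlgebra.single_mul_single, mul_one]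

theorem act_add (g : QuaternionGroup 3) (s t : S.carrier) :
    act S g (s + t) = act S g s + act S g t := smul_add _ _ _

theorem act_zero (g : QuaternionGroup 3) : act S g 0 = 0 := smul_zero _

theorem add_self (s : S.carrier) : s + s = 0 := by
  have h := intCast_smul S 2 s
  have h0 : (((2 : ℤ)) : ZMod 2) = 0 := by decide
  rw [h0, map_zero, zero_smul, two_zsmul] at h
  exact h.symm

theorem neg_self (s : S.carrier) : -s = s := neg_eq_of_add_eq_zero_left (add_self S s)

theorem zsmul_eq (c : ℤ) (s : S.carrier) : c • s = if Even c then 0 else s := by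
  split_ifs with h
  · obtain ⟨k, rfl⟩ := h
    rw [add_zsmul, add_self]
  · rw [Int.not_even_iff_odd] at h
    obtain ⟨k, rfl⟩ := h
    rw [add_zsmul, two_mul, add_zsmul, add_self, zero_add, one_zsmul]

variable {S}

theorem dichotomy (hS : IsSimpleModule (MonoidAlgebra (ZMod 2) (QuaternionGroup 3)) S.carrier)
    (P : S.carrier → Prop) (h0 : P 0) (hadd : ∀ x y, P x → P y → P (x + y))
    (hact : ∀ g x, P x → P (act S g x)) : (∀ x, P x → x = 0) ∨ ∀ x, P x := by
  let N : Submodule (MonoidAlgebra (ZMod 2) (QuaternionGroup 3)) S.carrier :=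
    { carrier := {x | P x}
      add_mem' := fun {x y} hx hy => hadd x y hx hy
      zero_mem' := h0
      smul_mem' := by
        intro r x hx
        induction r using MonoidAlgebra.induction_linear with
        | zero => rw [zero_smul]; exact h0
        | add r s hr hs => rw [add_smul]; exact hadd _ _ hr hs
        | single g c =>
          have hc : ∀ c : ZMod 2, c = 0 ∨ c = 1 := by decide
          rcases hc c with rfl | rfl
          · rw [MonoidAlgebra.single_zero, zero_smul]
            exact h0
          · exact hact g x hx }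
  rcases eq_bot_or_eq_top N with h | h
  · left
    intro x hx
    have : x ∈ N := hx
    rw [h] at this
    exact this
  · right
    intro x
    have : x ∈ N := by
      rw [h]
      exact Submodule.mem_top
    exact this

end

end Pool.Agent.X326.Dic
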